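import Pool.Agent.P.MP_7589f8_co.Data

/-! A maximal planar graph on 58 vertices in which every orientation has a vertex of in-degree at
least 2 and out-degree at least 2. -/

namespace Pool.Agent.Results.MP_7589f8_co.BiHeavy

open Pool.Agent.P.MP_7589f8_co

/-- `G` can be drawn in the plane: distinct points for the vertices, a simple arc for every edge,
an arc passes through no vertex other than its two ends, and the arcs of two different edges meet
only in common ends. -/
def IsPlanar {V : Type} (G : SimpleGraph V) : Prop :=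
  ∃ (f : V → ℝ × ℝ) (γ : ∀ u v : V, Path (f u) (f v)),
    Function.Injective f ∧
    (∀ u v, G.Adj u v → Function.Injective (γ u v)) ∧
    (∀ u v w, G.Adj u v → f w ∈ Set.range (γ u v) → w = u ∨ w = v) ∧
    (∀ u v x y, G.Adj u v → G.Adj x y → s(u, v) ≠ s(x, y) →
      Set.range (γ u v) ∩ Set.range (γ x y) ⊆ ({f u, f v} : Set (ℝ × ℝ)) ∩ {f x, f y})

/-- planar, and no edge can be added with the graph staying planar -/
def IsMaximalPlanar {V : Type} (G : SimpleGraph V) : Prop :=
  IsPlanar G ∧ ∀ u v, u ≠ v → ¬ G.Adj u v → ¬ IsPlanar (G ⊔ SimpleGraph.edge u v)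

/-- `D u v` means that the edge `uv` is directed from `u` to `v`: only edges are directed, and
every edge in exactly one direction. -/
def IsOrientation {V : Type} (G : SimpleGraph V) (D : V → V → Prop) : Prop :=
  (∀ u v, D u v → G.Adj u v) ∧ ∀ u v, G.Adj u v → (D u v ↔ ¬ D v u)

def G0 : SimpleGraph (Fin 58) :=
  SimpleGraph.fromRel fun u v => (u.val, v.val) ∈ edgeList

def rpt (v : Fin 58) : ℝ × ℝ := (((pt coords v.val).1 : ℝ), ((pt coords v.val).2 : ℝ))

def rorient (a b c : ℝ × ℝ) : ℝ := (b.1 - a.1) * (c.2 - a.2) - (b.2 - a.2) * (c.1 - a.1)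

theorem rorient_cast (u v w : Fin 58) :
    rorient (rpt u) (rpt v) (rpt w) =
      (orient (pt coords u.val) (pt coords v.val) (pt coords w.val) : ℝ) := by
  simp [rorient, rpt, orient]

theorem seg_repr {a b z : ℝ × ℝ} (h : z ∈ Set.range (Path.segment a b)) :
    ∃ s t : ℝ, 0 ≤ s ∧ 0 ≤ t ∧ s + t = 1 ∧ z.1 = s * a.1 + t * b.1 ∧ z.2 = s * a.2 + t * b.2 := by
  rw [Path.range_segment] at h
  obtain ⟨s, t, hs, ht, hst, rfl⟩ := h
  exact ⟨s, t, hs, ht, hst, by simp, by simp⟩

theorem seg_orient_zero {a b z : ℝ × ℝ} (h : z ∈ Set.range (Path.segment a b)) :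
    rorient a b z = 0 := by
  obtain ⟨s, t, -, -, hst, h1, h2⟩ := seg_repr h
  have : s = 1 - t := by linarith
  subst this
  simp only [rorient, h1, h2]; ring

theorem seg_disj {a b c d z : ℝ × ℝ} (h : z ∈ Set.range (Path.segment a b))
    (h' : z ∈ Set.range (Path.segment c d)) (hp : 0 < rorient a b c * rorient a b d) : False := by
  have h0 := seg_orient_zero h
  obtain ⟨s, t, hs, ht, hst, h1, h2⟩ := seg_repr h'
  have e : rorient a b z = s * rorient a b c + t * rorient a b d := by
    have : s = 1 - t := by linarith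
    subst this
    simp only [rorient, h1, h2]; ring
  rw [h0] at e
  rcases pos_and_pos_or_neg_and_neg_of_mul_pos hp with ⟨p, q⟩ | ⟨p, q⟩
  · rcases hs.eq_or_lt with rfl | hs'
    · have : t = 1 := by linarith
      subst this; linarith
    · nlinarith [mul_pos hs' p, mul_nonneg ht q.le]
  · rcases hs.eq_or_lt with rfl | hs'
    · have : t = 1 := by linarith
      subst this; linarith
    · nlinarith [mul_pos hs' (neg_pos.2 p), mul_nonneg ht (neg_pos.2 q).le]

theorem seg_share {a b d z : ℝ × ℝ} (h : z ∈ Set.range (Path.segment a b))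
    (h' : z ∈ Set.range (Path.segment a d)) (hp : rorient a b d ≠ 0) : z = a := by
  have h0 := seg_orient_zero h
  obtain ⟨s, t, hs, ht, hst, h1, h2⟩ := seg_repr h'
  have hs' : s = 1 - t := by linarith
  subst hs'
  have e : rorient a b z = t * rorient a b d := by
    simp only [rorient, h1, h2]; ring
  rw [h0] at e
  have ht0 : t = 0 := by
    rcases mul_eq_zero.1 e.symm with h | h
    · exact h
    · exact absurd h hp
  subst ht0
  ext
  · simpa using h1
  · simpa using h2

theorem seg_symm {a b z : ℝ × ℝ} (h : z ∈ Set.range (Path.segment a b)) :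
    z ∈ Set.range (Path.segment b a) := by
  rw [Path.range_segment] at h ⊢
  rwa [segment_symm]

theorem rorient_swap (a b c : ℝ × ℝ) : rorient b a c = - rorient a b c := by
  simp only [rorient]; ring

theorem draw_facts :
    (∀ u v : Fin 58, rpt u = rpt v → u = v) ∧
    (∀ e ∈ edgeList, e.1 < 58 ∧ e.2 < 58 ∧ e.1 ≠ e.2) ∧
    (∀ u v w : Fin 58, G0.Adj u v → w ≠ u → w ≠ v → rorient (rpt u) (rpt v) (rpt w) ≠ 0) ∧
    (∀ u v x y : Fin 58, G0.Adj u v → G0.Adj x y → u ≠ x → u ≠ y → v ≠ x → v ≠ y →
      0 < rorient (rpt u) (rpt v) (rpt x) * rorient (rpt u) (rpt v) (rpt y) ∨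
      0 < rorient (rpt x) (rpt y) (rpt u) * rorient (rpt x) (rpt y) (rpt v)) := by
  have h := draw_ok
  simp only [drawCheck, Bool.and_eq_true, List.all_eq_true, List.mem_range, Bool.or_eq_true,
    beq_iff_eq, bne_iff_ne, ne_eq, decide_eq_true_eq] at h
  obtain ⟨⟨h1, h2⟩, h3⟩ := h
  have A : ∀ u v w : Fin 58, (u.val, v.val) ∈ edgeList → w ≠ u → w ≠ v →
      rorient (rpt u) (rpt v) (rpt w) ≠ 0 := by
    intro u v w he hu hv
    rw [rorient_cast]
    rcases (h2 _ he).2 w.val w.2 with (h | h) | h
    · exact absurd (Fin.ext h) hu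
    · exact absurd (Fin.ext h) hv
    · exact_mod_cast h
  have B : ∀ u v x y : Fin 58, (u.val, v.val) ∈ edgeList → (x.val, y.val) ∈ edgeList →
      u ≠ x → u ≠ y → v ≠ x → v ≠ y →
      0 < rorient (rpt u) (rpt v) (rpt x) * rorient (rpt u) (rpt v) (rpt y) ∨
      0 < rorient (rpt x) (rpt y) (rpt u) * rorient (rpt x) (rpt y) (rpt v) := by
    intro u v x y he hf a b c d
    simp only [rorient_cast]
    rcases h3 _ he _ hf with ((((h | h) | h) | h) | h) | h
    · exact absurd (Fin.ext h) a
    · exact absurd (Fin.ext h) b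
    · exact absurd (Fin.ext h) c
    · exact absurd (Fin.ext h) d
    · left; exact_mod_cast h
    · right; exact_mod_cast h
  refine ⟨fun u v huv => ?_, fun e he => ⟨(h2 e he).1.1.1, (h2 e he).1.1.2, (h2 e he).1.2⟩,
    fun u v w huv hu hv => ?_, fun u v x y huv hxy a b c d => ?_⟩
  · rcases h1 u.val u.2 v.val v.2 with h | h
    · exact Fin.ext h
    · exfalso
      apply h
      simp only [rpt, Prod.mk.injEq, Int.cast_inj] at huv
      exact Prod.ext huv.1 huv.2
  · rcases ((SimpleGraph.fromRel_adj _ _ _).1 huv).2 with h | h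
    · exact A u v w h hu hv
    · rw [rorient_swap]; exact neg_ne_zero.2 (A v u w h hv hu)
  · rcases ((SimpleGraph.fromRel_adj _ _ _).1 huv).2 with h | h <;>
      rcases ((SimpleGraph.fromRel_adj _ _ _).1 hxy).2 with h' | h'
    · exact B u v x y h h' a b c d
    · rcases B u v y x h h' b a d c with k | k
      · left; linarith
      · right; rw [rorient_swap (rpt y) (rpt x) (rpt u), rorient_swap (rpt y) (rpt x) (rpt v)]
        linarith
    · rcases B v u x y h h' c d a b with k | k
      · left; rw [rorient_swap (rpt v) (rpt u) (rpt x), rorient_swap (rpt v) (rpt u) (rpt y)]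
        linarith
      · right; linarith
    · rcases B v u y x h h' d c b a with k | k
      · left; rw [rorient_swap (rpt v) (rpt u) (rpt x), rorient_swap (rpt v) (rpt u) (rpt y)]
        linarith
      · right; rw [rorient_swap (rpt y) (rpt x) (rpt u), rorient_swap (rpt y) (rpt x) (rpt v)]
        linarith

theorem G0_planar : IsPlanar G0 := by
  obtain ⟨h1, -, h2, h3⟩ := draw_facts
  refine ⟨rpt, fun u v => Path.segment (rpt u) (rpt v), h1, fun u v huv => ?_,
    fun u v w huv hw => ?_, fun u v x y huv hxy hne z hz => ?_⟩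
  · exact Path.segment_injective_of_ne fun h => huv.ne (h1 _ _ h)
  · by_contra hn
    push Not at hn
    exact h2 u v w huv hn.1 hn.2 (seg_orient_zero hw)
  · obtain ⟨hz1, hz2⟩ := hz
    by_cases a : u = x
    · subst a
      have hy : y ≠ v := fun h => hne (by rw [h])
      have := seg_share hz1 hz2 (h2 u v y huv hxy.ne' hy)
      subst this; simp
    by_cases b : u = y
    · subst b
      have hx : x ≠ v := fun h => hne (by rw [h, Sym2.eq_swap])
      have := seg_share hz1 (seg_symm hz2) (h2 u v x huv hxy.ne hx)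
      subst this; simp
    by_cases c : v = x
    · subst c
      have := seg_share (seg_symm hz1) hz2 (h2 v u y huv.symm hxy.ne' (Ne.symm b))
      subst this; simp
    by_cases d : v = y
    · subst d
      have := seg_share (seg_symm hz1) (seg_symm hz2) (h2 v u x huv.symm hxy.ne (Ne.symm a))
      subst this; simp
    exfalso
    rcases h3 u v x y huv hxy a b c d with k | k
    · exact seg_disj hz1 hz2 k
    · exact seg_disj hz2 hz1 k

theorem heavy_of_le (G : SimpleGraph (Fin 58)) (hG : G0 ≤ G) (D : Fin 58 → Fin 58 → Prop)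
    (hD : IsOrientation G D) :
    ∃ v, 2 ≤ {w | D v w}.ncard ∧ 2 ≤ {w | D w v}.ncard := by
  classical
  by_contra hno
  push Not at hno
  let C : Fin 58 → Bool := fun v => decide ({w | D v w}.ncard ≤ 1)
  let P : Fin 58 → Fin 58 := fun v =>
    if C v = true then (if h : ∃ w, D v w then h.choose else v)
    else (if h : ∃ w, D w v then h.choose else v)
  have key : ∀ u v, D u v → C u = C v → P u = v ∨ P v = u := by
    intro u v huv hc
    cases hu : C u
    · right
      have hv : C v = false := hc ▸ hu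
      have h1 : {w | D w v}.ncard ≤ 1 := by
        have : ¬ {w | D v w}.ncard ≤ 1 := by simpa [C] using hv
        have := hno v (by omega)
        omega
      have ex : ∃ w, D w v := ⟨u, huv⟩
      have : P v = ex.choose := by simp [P, hv, ex]
      rw [this]
      exact (Set.ncard_le_one (Set.toFinite _)).1 h1 _ ex.choose_spec _ huv
    · left
      have h1 : {w | D u w}.ncard ≤ 1 := by simpa [C] using hu
      have ex : ∃ w, D u w := ⟨v, huv⟩
      have : P u = ex.choose := by simp [P, hu, ex]
      rw [this]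
      exact (Set.ncard_le_one (Set.toFinite _)).1 h1 _ ex.choose_spec _ huv
  obtain ⟨-, hE, -, -⟩ := draw_facts
  refine no_pointers (fun n => if h : n < 58 then C ⟨n, h⟩ else false)
    (fun n => if h : n < 58 then (P ⟨n, h⟩).val else 0) ?_
  rintro ⟨a, b⟩ he hact
  obtain ⟨ha, hb, hab⟩ := hE _ he
  simp only at ha hb hab
  have hadj : G.Adj ⟨a, ha⟩ ⟨b, hb⟩ :=
    hG ((SimpleGraph.fromRel_adj _ _ _).2 ⟨fun h => hab (congrArg Fin.val h), Or.inl he⟩)
  have hc : C ⟨a, ha⟩ = C ⟨b, hb⟩ := by
    simpa [Dem.active, edgeDem, ha, hb] using hact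
  have : P ⟨a, ha⟩ = ⟨b, hb⟩ ∨ P ⟨b, hb⟩ = ⟨a, ha⟩ := by
    by_cases h : D ⟨a, ha⟩ ⟨b, hb⟩
    · exact key _ _ h hc
    · have h' : D ⟨b, hb⟩ ⟨a, ha⟩ := by
        by_contra h'
        exact h ((hD.2 _ _ hadj).2 h')
      exact (key _ _ h' hc.symm).symm
  rcases this with h | h
  · exact ⟨(a, [b]), by simp [edgeDem], by simp [ha, h]⟩
  · exact ⟨(b, [a]), by simp [edgeDem], by simp [hb, h]⟩

theorem result :
    ∃ G : SimpleGraph (Fin 58), IsMaximalPlanar G ∧
      ∀ D : Fin 58 → Fin 58 → Prop, IsOrientation G D →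
        ∃ v, 2 ≤ {w | D v w}.ncard ∧ 2 ≤ {w | D w v}.ncard := by
  obtain ⟨G, hle, hmax⟩ := Finite.exists_le_maximal (p := fun H => IsPlanar H) G0_planar
  refine ⟨G, ⟨hmax.prop, fun u v huv hn hp => hn ?_⟩, heavy_of_le G hle⟩
  have := hmax.le_of_ge hp le_sup_left
  exact this (Or.inr ((SimpleGraph.edge_adj _ _ _ _).2 ⟨Or.inl ⟨rfl, rfl⟩, huv⟩))

end Pool.Agent.Results.MP_7589f8_co.BiHeavy
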